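import Pool.Agent.H7.LP.Targets3

/-!
# Row DIQ: common lower indices
-/

set_option autoImplicit false

open Set Filter Topology

namespace Pool.Agent.H12.LPQ

open Pool.Agent.H93.CP Pool.Agent.H7.LP Pool.Agent.H7.LQ

theorem KX_le_H {G X : Type} [Group G] [TopologicalSpace G] {M : Subgroup G}
    [MeasurableSpace X] [MulAction M X] (B : Bs G) (L : LPD G) (Y : Hit M X) (k m : ℕ) (x : X)
    (g : G) : KX B L Y k m x g ≤ L.H k := by
  unfold KX KK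
  rw [Subgroup.closure_le]
  intro h hh
  exact hh.1.1

theorem pf_DIQ (_h1 : T_LBT) (h2 : T_DRQ) (h3 : T_NCO) (h4 : T_ADG) (_h5 : T_KKA) : T_DIQ := by
  intro G X _ _ _ _ _ _ B L M _ Y S x e w hc hw i j m
  obtain ⟨⟨k, mm, g⟩, hN, hm, hgH, li, lj⟩ :=
    h2 G X B L M Y S x (e i) (e j) m (hc.node i) (hc.node j)
  obtain ⟨l, -, hl1, hl2, hu⟩ := hc.all k mm g hN 0
  obtain ⟨-, hK, -⟩ := h3 G X B L M Y S k mm x (e l).2.2 (g * ((e l).2.2)⁻¹) hu
  have hg : g * ((e l).2.2)⁻¹ * (e l).2.2 = g := by group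
  rw [hg] at hK
  have huH : g * ((e l).2.2)⁻¹ ∈ L.H k := KX_le_H B L Y k mm x _ hu
  have hel : (e l).2.2 ∈ L.H k := by
    have h := (L.H k).mul_mem ((L.H k).inv_mem huH) hgH
    have h' : (g * ((e l).2.2)⁻¹)⁻¹ * g = (e l).2.2 := by group
    rwa [h'] at h
  have key : ∀ t : ℕ, Le B L Y x (k, mm, g) (e t) → (w.2 l t).1 = true := by
    intro t ht
    rw [hw.le]
    unfold Le at ht ⊢
    rw [hl1, hl2]
    simp only at ht
    rw [hK] at ht
    have h := (h4 G L k (e t).1 _ _ (g * ((e t).2.2)⁻¹) (g * ((e l).2.2)⁻¹)⁻¹ 1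
      (KX_le_H B L Y k mm x _) (KX_le_H B L Y _ _ x _) ht
      (Subgroup.inv_mem _ hu) (Subgroup.one_mem _)).1
    have h' : (g * ((e l).2.2)⁻¹)⁻¹ * (g * ((e t).2.2)⁻¹) * 1
        = (e l).2.2 * ((e t).2.2)⁻¹ := by group
    rwa [h'] at h
  refine ⟨l, ?_, ?_, key i li, key j lj⟩
  · rw [hw.k, hl1]; exact hm
  · rw [hw.k, hl1]; exact hel

end Pool.Agent.H12.LPQ
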